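import Pool.Agent.LR54.Enc

/-!
# MP_11ee63_lc: for every prime `p ≥ 13` the existential theory of `F_p[t]_(t)` in the language
`{+, -, ·, 0, 1}` of rings is undecidable, and every recursively enumerable set reduces to it.
-/

set_option autoImplicit false

namespace Pool.Agent.Results.MP_11ee63_lc.LargePrimes

open Polynomial

/-- `F_p[t]_(t)`: the subring of `F_p(t)` of all `f / g` with `f, g ∈ F_p[t]` and `g(0) ≠ 0`. -/
def R (p : ℕ) [Fact p.Prime] : Subring (RatFunc (ZMod p)) where
  carrier := {x | ∃ f g : (ZMod p)[X], g.eval 0 ≠ 0 ∧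
    x = algebraMap (ZMod p)[X] (RatFunc (ZMod p)) f / algebraMap (ZMod p)[X] (RatFunc (ZMod p)) g}
  mul_mem' := (LR54.A p).mul_mem'
  one_mem' := (LR54.A p).one_mem'
  add_mem' := (LR54.A p).add_mem'
  zero_mem' := (LR54.A p).zero_mem'
  neg_mem' := (LR54.A p).neg_mem'

/-- Terms of the language of rings `{+, -, ·, 0, 1}` in variables `x_0, x_1, …`. -/
inductive RTerm : Type
  | var (i : ℕ)
  | zero
  | one
  | neg (s : RTerm)
  | add (s t : RTerm)
  | sub (s t : RTerm)
  | mul (s t : RTerm)

/-- Value of a term in a ring. -/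
def RTerm.val {A : Type} [CommRing A] (x : ℕ → A) : RTerm → A
  | .var i => x i
  | .zero => 0
  | .one => 1
  | .neg s => - s.val x
  | .add s t => s.val x + t.val x
  | .sub s t => s.val x - t.val x
  | .mul s t => s.val x * t.val x

/-- Quantifier-free formulas of the language of rings. -/
inductive QF : Type
  | eq (s t : RTerm)
  | not (φ : QF)
  | and (φ ψ : QF)
  | or (φ ψ : QF)

/-- Truth of a quantifier-free formula in a ring. -/
def QF.holds {A : Type} [CommRing A] (x : ℕ → A) : QF → Prop
  | .eq s t => s.val x = t.val x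
  | .not φ => ¬ φ.holds x
  | .and φ ψ => φ.holds x ∧ ψ.holds x
  | .or φ ψ => φ.holds x ∨ ψ.holds x

/-- Goedel numbers of terms. -/
def RTerm.code : RTerm → ℕ
  | .var i => Nat.pair 0 i
  | .zero => Nat.pair 1 0
  | .one => Nat.pair 2 0
  | .neg s => Nat.pair 3 s.code
  | .add s t => Nat.pair 4 (Nat.pair s.code t.code)
  | .sub s t => Nat.pair 5 (Nat.pair s.code t.code)
  | .mul s t => Nat.pair 6 (Nat.pair s.code t.code)

/-- Goedel numbers of quantifier-free formulas. -/
def QF.code : QF → ℕ
  | .eq s t => Nat.pair 0 (Nat.pair s.code t.code)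
  | .not φ => Nat.pair 1 φ.code
  | .and φ ψ => Nat.pair 2 (Nat.pair φ.code ψ.code)
  | .or φ ψ => Nat.pair 3 (Nat.pair φ.code ψ.code)

/-- Different terms have different Goedel numbers. -/
theorem RTerm.code_injective : Function.Injective RTerm.code := by
  intro s
  induction s with
  | var i =>
    intro t h
    cases t <;> simp [RTerm.code, Nat.pair_eq_pair] at h ⊢
    exact h
  | zero => intro t h; cases t <;> simp [RTerm.code, Nat.pair_eq_pair] at h ⊢
  | one => intro t h; cases t <;> simp [RTerm.code, Nat.pair_eq_pair] at h ⊢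
  | neg s ih =>
    intro t h
    cases t <;> simp [RTerm.code, Nat.pair_eq_pair] at h ⊢
    exact ih h
  | add s s' ih ih' =>
    intro t h
    cases t <;> simp [RTerm.code, Nat.pair_eq_pair] at h ⊢
    exact ⟨ih h.1, ih' h.2⟩
  | sub s s' ih ih' =>
    intro t h
    cases t <;> simp [RTerm.code, Nat.pair_eq_pair] at h ⊢
    exact ⟨ih h.1, ih' h.2⟩
  | mul s s' ih ih' =>
    intro t h
    cases t <;> simp [RTerm.code, Nat.pair_eq_pair] at h ⊢
    exact ⟨ih h.1, ih' h.2⟩

/-- Different quantifier-free formulas have different Goedel numbers. -/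
theorem QF.code_injective : Function.Injective QF.code := by
  intro s
  induction s with
  | eq s s' =>
    intro t h
    cases t <;> simp [QF.code, Nat.pair_eq_pair] at h ⊢
    exact ⟨RTerm.code_injective h.1, RTerm.code_injective h.2⟩
  | not s ih =>
    intro t h
    cases t <;> simp [QF.code, Nat.pair_eq_pair] at h ⊢
    exact ih h
  | and s s' ih ih' =>
    intro t h
    cases t <;> simp [QF.code, Nat.pair_eq_pair] at h ⊢
    exact ⟨ih h.1, ih' h.2⟩
  | or s s' ih ih' =>
    intro t h
    cases t <;> simp [QF.code, Nat.pair_eq_pair] at h ⊢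
    exact ⟨ih h.1, ih' h.2⟩

/-- `A ⊨ ∃ x_0 ∃ x_1 … φ`. -/
def Sat (A : Type) [CommRing A] (φ : QF) : Prop := ∃ x : ℕ → A, φ.holds x

/-- A term for a natural number. -/
def natT : ℕ → RTerm
  | 0 => .zero
  | n + 1 => .add (natT n) .one

theorem natT_val {A : Type} [CommRing A] (x : ℕ → A) (n : ℕ) : (natT n).val x = n := by
  induction n with
  | zero => simp [natT, RTerm.val]
  | succ n ih => simp [natT, RTerm.val, ih]

/-- A term for an integer. -/
def intT (n : ℤ) : RTerm := .sub (natT n.toNat) (natT (-n).toNat)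

theorem intT_val {A : Type} [CommRing A] (x : ℕ → A) (n : ℤ) : (intT n).val x = (n : A) := by
  have h : ((n.toNat : ℤ) - ((-n).toNat : ℤ)) = n := by omega
  simp only [intT, RTerm.val, natT_val]
  conv_rhs => rw [← h]
  push_cast
  rfl

/-- A term for a list of variables. -/
def monT : List ℕ → RTerm
  | [] => .one
  | i :: l => .mul (.var i) (monT l)

theorem monT_val {A : Type} [CommRing A] (x : ℕ → A) (l : List ℕ) :
    (monT l).val x = (l.map x).prod := by
  induction l with
  | nil => simp [monT, RTerm.val]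
  | cons i l ih => simp [monT, RTerm.val, ih]

/-- A term for a list polynomial. -/
def polT : List (ℤ × List ℕ) → RTerm
  | [] => .zero
  | m :: l => .add (.mul (intT m.1) (monT m.2)) (polT l)

theorem polT_val {A : Type} [CommRing A] (x : ℕ → A) (l : List (ℤ × List ℕ)) :
    (polT l).val x = LR54.lval x l := by
  induction l with
  | nil => simp [polT, RTerm.val, LR54.lval]
  | cons m l ih =>
    simp only [polT, RTerm.val, ih, intT_val, monT_val, LR54.lval, List.map_cons, List.sum_cons]

/-- The formula for a finite system. -/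
def sysQ : List (List (ℤ × List ℕ)) → QF → QF
  | [], φ => φ
  | f :: l, φ => .and (.eq (polT f) .zero) (sysQ l φ)

theorem sysQ_holds {A : Type} [CommRing A] (x : ℕ → A) (l : List (List (ℤ × List ℕ))) (φ : QF) :
    (sysQ l φ).holds x ↔ (∀ f ∈ l, LR54.lval x f = 0) ∧ φ.holds x := by
  induction l with
  | nil => simp [sysQ]
  | cons f l ih =>
    simp only [sysQ, QF.holds, ih, polT_val, RTerm.val, List.mem_cons, forall_eq_or_imp]
    tauto

/-- `n`-th power of a term. -/
def powT (s : RTerm) : ℕ → RTerm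
  | 0 => .one
  | n + 1 => .mul (powT s n) s

theorem powT_val {A : Type} [CommRing A] (x : ℕ → A) (s : RTerm) (n : ℕ) :
    (powT s n).val x = (s.val x) ^ n := by
  induction n with
  | zero => simp [powT, RTerm.val]
  | succ n ih => simp [powT, RTerm.val, ih, pow_succ]

/-- A term for `x_0^(p^c)`. -/
def frobT (p : ℕ) : ℕ → RTerm
  | 0 => .var 0
  | n + 1 => powT (frobT p n) p

theorem frobT_val {A : Type} [CommRing A] (x : ℕ → A) (p c : ℕ) :
    (frobT p c).val x = (x 0) ^ (p ^ c) := by
  induction c with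
  | zero => simp [frobT, RTerm.val]
  | succ n ih => rw [frobT, powT_val, ih, ← pow_mul, pow_succ]

/-- Code of a power. -/
def powC (n : ℕ) (m : ℕ) : ℕ := Nat.rec (Nat.pair 2 0) (fun _ r => Nat.pair 6 (Nat.pair r m)) n

theorem powT_code (s : RTerm) (n : ℕ) : (powT s n).code = powC n s.code := by
  induction n with
  | zero => rfl
  | succ n ih => rw [powT, RTerm.code, ih]; rfl

theorem powC_primrec (n : ℕ) : Primrec (powC n) := by
  induction n with
  | zero => exact Primrec.const _
  | succ n ih =>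
    exact Primrec₂.natPair.comp (Primrec.const 6) (Primrec₂.natPair.comp ih Primrec.id)

theorem frobT_primrec (p : ℕ) : Primrec fun c => (frobT p c).code := by
  refine (Primrec.nat_rec₁ (f := fun _ m => powC p m) (Nat.pair 0 0) ?_).of_eq ?_
  · exact (powC_primrec p).comp Primrec.snd
  · intro n
    induction n with
    | zero => rfl
    | succ n ih => rw [frobT, powT_code, ← ih]

/-- The formula `φ_c`. -/
def phi (p : ℕ) (L : List (List (ℤ × List ℕ))) (g : List (ℤ × List ℕ)) (c : ℕ) : QF :=
  .and (.eq (.var 1) (frobT p c)) (sysQ L (.not (.eq (polT g) .zero)))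

theorem phi_primrec (p : ℕ) (L : List (List (ℤ × List ℕ))) (g : List (ℤ × List ℕ)) :
    Primrec fun c => (phi p L g c).code := by
  have h : Primrec fun c => Nat.pair 2 (Nat.pair (Nat.pair 0 (Nat.pair (Nat.pair 0 1)
      (frobT p c).code)) (sysQ L (.not (.eq (polT g) .zero))).code) :=
    Primrec₂.natPair.comp (Primrec.const 2) (Primrec₂.natPair.comp
      (Primrec₂.natPair.comp (Primrec.const 0) (Primrec₂.natPair.comp (Primrec.const _)
        (frobT_primrec p))) (Primrec.const _))
  exact h

theorem sat_phi (p : ℕ) [Fact p.Prime] (L : List (List (ℤ × List ℕ))) (g : List (ℤ × List ℕ))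
    (c : ℕ) : Sat (R p) (phi p L g c) ↔ ∃ x : ℕ → LR54.A p,
      (∀ f ∈ ([((1 : ℤ), [1]), ((-1 : ℤ), List.replicate (p ^ c) 0)] :: L),
        LR54.lval x f = 0) ∧ LR54.lval x g ≠ 0 := by
  have hRA : R p = LR54.A p := rfl
  have h0 : Sat (R p) (phi p L g c) ↔ ∃ x : ℕ → LR54.A p, (phi p L g c).holds x := by
    rw [hRA]; rfl
  rw [h0]
  refine exists_congr fun x => ?_
  simp only [phi, QF.holds, sysQ_holds, frobT_val, RTerm.val, polT_val, List.mem_cons,
    forall_eq_or_imp, ← and_assoc]
  refine and_congr_left fun _ => and_congr_left fun _ => ?_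
  simp only [LR54.lval, List.map_cons, List.map_nil, List.prod_cons, List.prod_nil,
      List.sum_cons, List.sum_nil, List.map_replicate, List.prod_replicate]
  constructor
  · intro h
    rw [h]; push_cast; ring
  · intro h
    have : x 1 - x 0 ^ p ^ c = 0 := by
      rw [← h]; push_cast; ring
    exact sub_eq_zero.1 this

theorem dioph_of_re {S : ℕ → Prop} (hS : REPred S) : Dioph {v : Fin2 1 → ℕ | S (v Fin2.fz)} := by
  let G : ℕ →. ℕ := fun n => Part.assert (S n) fun _ => Part.some 0
  have hg : Nat.Partrec G := by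
    rw [← Partrec.nat_iff]
    have h1 : Partrec fun n : ℕ => (Part.assert (S n) fun _ => Part.some ()).map fun _ => 0 :=
      hS.map ((Computable.const 0).to₂)
    refine h1.of_eq fun n => ?_
    apply Part.ext
    intro y
    simp only [G, Part.mem_map_iff, Part.mem_assert_iff, Part.mem_some_iff]
    constructor
    · rintro ⟨_, ⟨h, _⟩, rfl⟩
      exact ⟨h, rfl⟩
    · rintro ⟨h, rfl⟩
      exact ⟨(), ⟨h, trivial⟩, rfl⟩
  have h : Dioph {v : Fin2 1 → ℕ | ∃ y, y ∈ G (v Fin2.fz)} := by
    refine DP54.ex (P := fun v y => y ∈ G (v Fin2.fz)) ?_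
    exact DP54.dg_of_partrec hg (Dioph.proj_dioph (some Fin2.fz)) (Dioph.proj_dioph none)
  refine Dioph.ext h fun v => ?_
  simp [G, Part.mem_assert_iff]

/-- For every prime `p ≥ 13`: every recursively enumerable set of numbers is computably reducible
to the existential theory of `F_p[t]_(t)` in the language of rings (without `t`); in particular no
algorithm decides, for the quantifier-free formulas `φ` of this language, whether `∃ x φ` holds in
`F_p[t]_(t)`. -/
theorem result (p : ℕ) [Fact p.Prime] (hp : 13 ≤ p) :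
    (¬ ∃ d : ℕ → Bool, Computable d ∧ ∀ φ : QF, (d φ.code = true ↔ Sat (R p) φ)) ∧
    ∀ S : ℕ → Prop, REPred S → ∃ e : ℕ → ℕ, Computable e ∧
      ∀ c : ℕ, ∃ φ : QF, φ.code = e c ∧ (S c ↔ Sat (R p) φ) := by
  have key : ∀ S : ℕ → Prop, Dioph {v : Fin2 1 → ℕ | S (v Fin2.fz)} → ∃ e : ℕ → ℕ,
      Computable e ∧ ∀ c : ℕ, ∃ φ : QF, φ.code = e c ∧ (S c ↔ Sat (R p) φ) := by
    intro S hS
    obtain ⟨L, g, hLg⟩ := LR54.reduction hp hS
    refine ⟨fun c => (phi p L g c).code, (phi_primrec p L g).to_comp, fun c => ?_⟩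
    exact ⟨phi p L g c, rfl, by rw [hLg c, sat_phi]⟩
  refine ⟨?_, fun S hS => key S (dioph_of_re hS)⟩
  rintro ⟨d, hd, hd'⟩
  obtain ⟨S, hS, hSn⟩ := DP54.exists_dioph_not_computable
  obtain ⟨e, he, he'⟩ := key S hS
  apply hSn
  rw [ComputablePred.computable_iff]
  refine ⟨fun c => d (e c), hd.comp he, ?_⟩
  funext c
  obtain ⟨φ, h1, h2⟩ := he' c
  apply propext
  rw [h2, ← hd' φ, h1]

end Pool.Agent.Results.MP_11ee63_lc.LargePrimes
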